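import Pool.Agent.GK71.Sta

/-!
# Koenig repair of falsely named cells, with private partner rows
-/

open Finset

set_option autoImplicit false
set_option linter.unusedSectionVars false

namespace Pool.Agent.MM84

open Pool.Agent.Rl45 Pool.Agent.GK71

variable {R V S ι : Type*} [Fintype R] [DecidableEq R] [Fintype V] [DecidableEq V]
  [Fintype S] [DecidableEq S] [DecidableEq ι]

variable {a a' : R → V → S} {Lc : Finset (R × V)} {pr : ι → V → R} {J J' : Finset ι}

theorem prs_empty : prs pr (∅ : Finset ι) = ∅ := by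
  unfold prs
  rw [biUnion_empty]

theorem disj_Lc_prs (hc : Ctx a Lc pr) {X : Finset (R × V)} (hX : X ⊆ Lc) (J : Finset ι) :
    Disjoint X (prs pr J) := by
  rw [disjoint_left]
  intro e he he'
  obtain ⟨i, -, hi⟩ := mem_prs.1 he'
  exact hc.prL i e.2 e (hX he) hi.symm

theorem disj_prs (hc : Ctx a Lc pr) (h : Disjoint J J') : Disjoint (prs pr J) (prs pr J') := by
  rw [disjoint_left]
  intro e he he'
  obtain ⟨i, hi, h1⟩ := mem_prs.1 he
  obtain ⟨i', hi', h2⟩ := mem_prs.1 he'
  obtain ⟨h3, -⟩ := hc.inj i e.2 i' e.2 (h1.trans h2.symm)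
  exact disjoint_left.1 h hi (h3 ▸ hi')

/-- One section for the names, with one partner row for every falsely named cell. -/
theorem repair_sec (hc : Ctx a Lc pr)
    (Z : Finset (R × V)) (par : R × V → ι)
    (hpi : ∀ e ∈ Z, ∀ e' ∈ Z, par e = par e' → e = e')
    (hpm : ∀ e ∈ Z, ∀ v, a (pr (par e) v) v ≠ sm a e)
    (haa : ∀ e, e ∉ Z → sm a' e = sm a e) {X : Finset (R × V)} (hX : X ⊆ Lc)
    (h : Sec a' X) :
    Cov a (1 + (X ∩ Z).card) (X ∪ prs pr ((X ∩ Z).image par)) := by
  have hJ : ∀ Y ⊆ Z, (Y.image par).card = Y.card := by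
    intro Y hY
    refine card_image_of_injOn ?_
    intro e he e' he' h1
    exact hpi e (hY (mem_coe.1 he)) e' (hY (mem_coe.1 he')) h1
  have hdj := disj_Lc_prs hc hX ((X ∩ Z).image par)
  refine cov_of_koenig a _ _ ?_ ?_ ?_
  · intro v
    rw [filter_union, card_union_of_disjoint (disjoint_filter_filter hdj), h.col, hc.col_prs,
      hJ _ inter_subset_right]
  · intro y
    rw [filter_union]
    refine (card_union_le _ _).trans ?_
    have h1 : (X.filter fun e => sm a e = y) ⊆
        (X.filter fun e => sm a' e = y) ∪ ((X ∩ Z).filter fun e => sm a e = y) := by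
      intro e he
      rw [mem_filter] at he
      rw [mem_union, mem_filter, mem_filter, mem_inter]
      by_cases hz : e ∈ Z
      · exact Or.inr ⟨⟨he.1, hz⟩, he.2⟩
      · exact Or.inl ⟨he.1, (haa e hz).trans he.2⟩
    have h2 : (X.filter fun e => sm a' e = y).card ≤ 1 := by
      rw [card_le_one]
      intro e he e' he'
      rw [mem_filter] at he he'
      exact h.sym e he.1 e' he'.1 (he.2.trans he'.2.symm)
    have h3 := (card_le_card h1).trans (card_union_le _ _)
    have h4 := hc.sym_prs ((X ∩ Z).image par) y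
    have h5 : (((X ∩ Z).image par).filter fun i => ∃ v, a (pr i v) v = y) ⊆
        ((X ∩ Z).image par) \ (((X ∩ Z).filter fun e => sm a e = y).image par) := by
      intro i hi
      rw [mem_filter] at hi
      rw [mem_sdiff]
      refine ⟨hi.1, ?_⟩
      intro h6
      obtain ⟨e, he, rfl⟩ := mem_image.1 h6
      rw [mem_filter, mem_inter] at he
      obtain ⟨v, hv⟩ := hi.2
      exact hpm e he.1.2 v (hv.trans he.2.symm)
    have h6 := card_le_card h5
    rw [card_sdiff_of_subset (image_subset_image (filter_subset _ _)), hJ _ inter_subset_right,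
      hJ _ ((filter_subset _ _).trans inter_subset_right)] at h6
    have h7 : ((X ∩ Z).filter fun e => sm a e = y).card ≤ (X ∩ Z).card :=
      card_le_card (filter_subset _ _)
    omega
  · intro e he e' he' h1
    rcases mem_union.1 he with he | he <;> rcases mem_union.1 he' with he' | he'
    · exact h.row e he e' he' h1
    · obtain ⟨i, -, hi⟩ := mem_prs.1 he'
      exact absurd (h1.trans hi.symm) (hc.prL i e'.2 e (hX he))
    · obtain ⟨i, -, hi⟩ := mem_prs.1 he
      exact absurd (h1.symm.trans hi.symm) (hc.prL i e.2 e' (hX he'))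
    · obtain ⟨i, -, hi⟩ := mem_prs.1 he
      obtain ⟨i', -, hi'⟩ := mem_prs.1 he'
      exact Prod.ext h1 (hc.inj i e.2 i' e'.2 (hi.trans (h1.trans hi'.symm))).2

theorem cov_of_isEmpty [IsEmpty V] (a : R → V → S) (N : ℕ) (C : Finset (R × V)) :
    Cov a N C := by
  refine ⟨fun _ v => isEmptyElim v, fun _ v => isEmptyElim v, fun _ v => isEmptyElim v,
    fun v => isEmptyElim v, fun e => isEmptyElim e.2⟩

/-- Koenig repair (block E3): a family of disjoint sections for the names `a'` becomes a family of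
disjoint transversals if one partner row is added for every falsely named cell. -/
theorem repair_cov (hc : Ctx a Lc pr)
    (Z : Finset (R × V)) (par : R × V → ι)
    (hpi : ∀ e ∈ Z, ∀ e' ∈ Z, par e = par e' → e = e')
    (hpm : ∀ e ∈ Z, ∀ v, a (pr (par e) v) v ≠ sm a e)
    (haa : ∀ e, e ∉ Z → sm a' e = sm a e) :
    ∀ (N : ℕ) (C : Finset (R × V)), C ⊆ Lc → Cov a' N C →
      Cov a (N + (C ∩ Z).card) (C ∪ prs pr ((C ∩ Z).image par)) := by
  intro N
  rcases isEmpty_or_nonempty V with hV | ⟨⟨v₀⟩⟩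
  · intro C _ _
    exact cov_of_isEmpty _ _ _
  induction N with
  | zero =>
    intro C _ h
    have hC : C = ∅ := by
      rw [eq_empty_iff_forall_notMem]
      intro e he
      obtain ⟨T, -, -, -, h4⟩ := h
      obtain ⟨i, -⟩ := (h4 e).1 he
      exact i.elim0
    subst hC
    rw [empty_inter, image_empty, prs_empty, card_empty, union_empty]
    exact Cov.zero
  | succ N ih =>
    intro C hC h
    have hne : ∃ e, e ∈ C := by
      obtain ⟨T, -, -, -, h4⟩ := h
      exact ⟨(T 0 v₀, v₀), (h4 _).2 ⟨0, rfl⟩⟩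
    obtain ⟨e, he⟩ := hne
    obtain ⟨X, N', hXC, -, hX, hN, hcov⟩ := h.remove he
    obtain rfl : N = N' := Nat.succ_injective hN
    have h1 := ih (C \ X) (sdiff_subset.trans hC) hcov
    have h2 := repair_sec hc Z par hpi hpm haa (hXC.trans hC) hX
    have hdI : Disjoint ((C \ X) ∩ Z) (X ∩ Z) := by
      rw [disjoint_left]
      intro e he he'
      exact (mem_sdiff.1 (mem_inter.1 he).1).2 (mem_inter.1 he').1
    have hUI : ((C \ X) ∩ Z) ∪ (X ∩ Z) = C ∩ Z := by
      rw [← union_inter_distrib_right, sdiff_union_of_subset hXC]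
    have hdP : Disjoint (((C \ X) ∩ Z).image par) ((X ∩ Z).image par) := by
      rw [disjoint_left]
      intro i hi hi'
      obtain ⟨e, he, rfl⟩ := mem_image.1 hi
      obtain ⟨e', he', h3⟩ := mem_image.1 hi'
      have h4 := hpi e' (mem_inter.1 he').2 e (mem_inter.1 he).2 h3
      exact disjoint_left.1 hdI he (h4 ▸ he')
    have hd : Disjoint ((C \ X) ∪ prs pr (((C \ X) ∩ Z).image par))
        (X ∪ prs pr ((X ∩ Z).image par)) := by
      rw [disjoint_union_left, disjoint_union_right, disjoint_union_right]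
      exact ⟨⟨sdiff_disjoint, disj_Lc_prs hc (sdiff_subset.trans hC) _⟩,
        (disj_Lc_prs hc (hXC.trans hC) _).symm, disj_prs hc hdP⟩
    have h3 := h1.union h2 hd
    have h4 : N + ((C \ X) ∩ Z).card + (1 + (X ∩ Z).card) = N + 1 + (C ∩ Z).card := by
      rw [← hUI, card_union_of_disjoint hdI]
      omega
    have h5 : ((C \ X) ∪ prs pr (((C \ X) ∩ Z).image par)) ∪ (X ∪ prs pr ((X ∩ Z).image par)) =
        C ∪ prs pr ((C ∩ Z).image par) := by
      rw [union_union_union_comm, sdiff_union_of_subset hXC, ← prs_union, ← image_union, hUI]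
    rw [h4, h5] at h3
    exact h3

/-- The same in the form asked for by the assembly. -/
theorem repair (hc : Ctx a Lc pr) (_ : ∀ r, Function.Injective (a' r))
    (Z : Finset (R × V)) (par : R × V → ι)
    (hpi : ∀ e ∈ Z, ∀ e' ∈ Z, par e = par e' → e = e')
    (hpm : ∀ e ∈ Z, ∀ v, a (pr (par e) v) v ≠ sm a e)
    (haa : ∀ e, e ∉ Z → sm a' e = sm a e) (N : ℕ) (C : Finset (R × V)) (hC : C ⊆ Lc)
    (h : Cov a' N C) : Cov a (N + (C ∩ Z).card) (C ∪ prs pr ((C ∩ Z).image par)) :=
  repair_cov hc Z par hpi hpm haa N C hC h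

end Pool.Agent.MM84
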